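import Mathlib
import Pool.Agent.H.MP_c8cc4c_co.L.GlueA
import Pool.Agent.H.MP_c8cc4c_co.B.Path

/-! # MP_c8cc4c_co, part S (section 5), file Cyc: cycles -/

open scoped Classical
open Finset

noncomputable section

namespace Pool.Agent.H.MP_c8cc4c_co.Sp

open Pool.Agent.H.MP_c8cc4c_co.Lp

variable {M : PC}

/-- a simple closed walk of length `n`, with periodic numbering -/
structure Cyc (M : PC) (n : ℕ) (gv : ℕ → M.V) (ge : ℕ → M.E) : Prop where
  n3 : 3 ≤ n
  vper : ∀ t, gv (t + n) = gv t
  eper : ∀ t, ge (t + n) = ge t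
  inj : ∀ s t, s < n → t < n → gv s = gv t → s = t
  inc : ∀ t, M.inc (ge t) (gv t) ∧ M.inc (ge t) (gv (t + 1))

section

variable {n : ℕ} {gv : ℕ → M.V} {ge : ℕ → M.E}

theorem Cyc.vmod (h : Cyc M n gv ge) (s : ℕ) : gv (s % n) = gv s := by
  conv_rhs => rw [← Nat.mod_add_div s n]
  generalize s / n = k
  induction k with
  | zero => rw [mul_zero, add_zero]
  | succ k ih => rw [Nat.mul_succ, ← add_assoc, h.vper, ih]

theorem Cyc.emod (h : Cyc M n gv ge) (s : ℕ) : ge (s % n) = ge s := by
  conv_rhs => rw [← Nat.mod_add_div s n]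
  generalize s / n = k
  induction k with
  | zero => rw [mul_zero, add_zero]
  | succ k ih => rw [Nat.mul_succ, ← add_assoc, h.eper, ih]

theorem Cyc.veq (h : Cyc M n gv ge) {s t : ℕ} (hst : gv s = gv t) : s % n = t % n := by
  have h3 := h.n3
  refine h.inj _ _ (Nat.mod_lt _ (by omega)) (Nat.mod_lt _ (by omega)) ?_
  rw [h.vmod, h.vmod, hst]

theorem Cyc.succ_ne (h : Cyc M n gv ge) (t : ℕ) : gv t ≠ gv (t + 1) := by
  intro he
  have h3 := h.n3
  have h1 := h.veq he
  rw [← Nat.mod_add_mod] at h1
  have h2 : t % n < n := Nat.mod_lt _ (by omega)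
  generalize t % n = r at *
  by_cases h4 : r + 1 < n
  · rw [Nat.mod_eq_of_lt h4] at h1
    omega
  · have h5 : r + 1 = n := by omega
    rw [h5, Nat.mod_self] at h1
    omega

theorem Cyc.ends (hM : M.IsSphere) (h : Cyc M n gv ge) {t : ℕ} {x : M.V}
    (hx : M.inc (ge t) x) : x = gv t ∨ x = gv (t + 1) :=
  inc_cases hM (h.succ_ne t) (h.inc t).1 (h.inc t).2 hx

theorem Cyc.eeq (hM : M.IsSphere) (h : Cyc M n gv ge) {s t : ℕ} (hst : ge s = ge t) :
    s % n = t % n := by
  have h3 := h.n3
  have h1 := (h.inc s).1
  have h2 := (h.inc s).2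
  rw [hst] at h1 h2
  rcases h.ends hM h1 with h4 | h4
  · exact h.veq h4
  · rcases h.ends hM h2 with h5 | h5
    · -- `gv s = gv (t+1)`, `gv (s+1) = gv t`
      exfalso
      have e1 := h.veq h4
      have e2 := h.veq h5
      rw [← Nat.mod_add_mod t] at e1
      rw [← Nat.mod_add_mod s] at e2
      have l1 : s % n < n := Nat.mod_lt _ (by omega)
      have l2 : t % n < n := Nat.mod_lt _ (by omega)
      generalize s % n = a at *
      generalize t % n = b at *
      rcases Nat.lt_or_ge (a + 1) n with h6 | h6
      · rw [Nat.mod_eq_of_lt h6] at e2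
        rcases Nat.lt_or_ge (b + 1) n with h7 | h7
        · rw [Nat.mod_eq_of_lt h7] at e1
          omega
        · have h8 : b + 1 = n := by omega
          rw [h8, Nat.mod_self] at e1
          omega
      · have h8 : a + 1 = n := by omega
        rw [h8, Nat.mod_self] at e2
        rcases Nat.lt_or_ge (b + 1) n with h7 | h7
        · rw [Nat.mod_eq_of_lt h7] at e1
          omega
        · have h9 : b + 1 = n := by omega
          rw [h9, Nat.mod_self] at e1
          omega
    · exact absurd (h5.trans h4.symm).symm (h.succ_ne s)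

/-- the chain of the edges number `i, ..., j - 1` -/
def arc (ge : ℕ → M.E) (i j : ℕ) : M.E → ZMod 2 := ∑ t ∈ Ico i j, Pi.single (ge t) 1

theorem arc_add (ge : ℕ → M.E) {i j k : ℕ} (hij : i ≤ j) (hjk : j ≤ k) :
    arc ge i j + arc ge j k = arc ge i k := by
  unfold arc
  exact sum_Ico_consecutive _ hij hjk

theorem arc_supp (ge : ℕ → M.E) {i j : ℕ} {e : M.E} (h : arc ge i j e ≠ 0) :
    ∃ t, i ≤ t ∧ t < j ∧ ge t = e := by
  unfold arc at h
  rw [Finset.sum_apply] at h
  obtain ⟨t, ht, h1⟩ := exists_ne_zero_of_sum_ne_zero h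
  rw [mem_Ico] at ht
  refine ⟨t, ht.1, ht.2, ?_⟩
  by_contra h2
  exact h1 (Pi.single_eq_of_ne (fun h3 => h2 h3.symm) _)

theorem wt_single (e : M.E) : M.wt (Pi.single e (1 : ZMod 2)) ≤ 1 := by
  unfold PC.wt
  rw [card_le_one]
  intro a ha b hb
  rw [mem_filter] at ha hb
  have h1 : ∀ a, (Pi.single e (1 : ZMod 2) : M.E → ZMod 2) a ≠ 0 → a = e := by
    intro a h
    by_contra h2
    exact h (Pi.single_eq_of_ne h2 _)
  rw [h1 a ha.2, h1 b hb.2]

theorem arc_wt (ge : ℕ → M.E) {i j : ℕ} (hij : i ≤ j) : M.wt (arc ge i j) ≤ j - i := by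
  obtain ⟨k, rfl⟩ := Nat.exists_eq_add_of_le hij
  rw [Nat.add_sub_cancel_left]
  induction k with
  | zero =>
    have h1 : arc ge i (i + 0) = 0 := by
      unfold arc
      rw [add_zero, Ico_self, sum_empty]
    rw [h1, (wt_eq_zero _).2 rfl]
  | succ k ih =>
    have h1 : arc ge i (i + (k + 1)) = arc ge i (i + k) + Pi.single (ge (i + k)) 1 := by
      unfold arc
      rw [← add_assoc, sum_Ico_succ_top (by omega)]
    rw [h1]
    exact (wt_add_le _ _).trans (Nat.add_le_add (ih (by omega)) (wt_single _))

theorem zmod_fun_add_self {α : Type} (g : α → ZMod 2) : g + g = 0 := by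
  funext x
  rw [Pi.add_apply, Pi.zero_apply]
  generalize g x = v
  revert v
  decide

theorem arc_dE (hM : M.IsSphere) (h : Cyc M n gv ge) {i j : ℕ} (hij : i ≤ j) :
    M.dE (arc ge i j) = Pi.single (gv i) 1 + Pi.single (gv j) 1 := by
  obtain ⟨k, rfl⟩ := Nat.exists_eq_add_of_le hij
  induction k with
  | zero =>
    have h1 : arc ge i (i + 0) = 0 := by
      unfold arc
      rw [add_zero, Ico_self, sum_empty]
    rw [h1, add_zero, zmod_fun_add_self]
    funext v
    exact ev_zero v
  | succ k ih =>
    have h1 : arc ge i (i + (k + 1)) = arc ge i (i + k) + Pi.single (ge (i + k)) 1 := by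
      unfold arc
      rw [← add_assoc, sum_Ico_succ_top (by omega)]
    rw [h1, dE_add, ih (by omega), dE_single hM (h.succ_ne (i + k)) (h.inc _).1 (h.inc _).2]
    have h2 : ∀ a b c : M.V → ZMod 2, a + b + (b + c) = a + c := by
      intro a b c
      rw [add_assoc, ← add_assoc b b c, zmod_fun_add_self, zero_add]
    rw [h2]
    rfl

/-- the chain of the whole cycle -/
theorem cyc_ev (hM : M.IsSphere) (h : Cyc M n gv ge) : M.Ev (arc ge 0 n) := by
  intro v
  rw [arc_dE hM h (Nat.zero_le n)]
  have h1 : gv n = gv 0 := by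
    have := h.vper 0
    rw [zero_add] at this
    exact this
  rw [h1, zmod_fun_add_self]
  rfl

theorem cyc_apply (hM : M.IsSphere) (h : Cyc M n gv ge) (t : ℕ) : arc ge 0 n (ge t) = 1 := by
  have h3 := h.n3
  have ht : t % n < n := Nat.mod_lt _ (by omega)
  unfold arc
  rw [Finset.sum_apply, sum_eq_single (t % n)]
  · rw [h.emod, Pi.single_eq_same]
  · intro s hs hne
    rw [mem_Ico] at hs
    refine Pi.single_eq_of_ne (fun h4 => hne ?_) _
    have h5 := h.eeq hM h4
    rw [Nat.mod_eq_of_lt hs.2] at h5
    exact h5.symm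
  · intro h4
    exact absurd (mem_Ico.2 ⟨Nat.zero_le _, ht⟩) h4

theorem cyc_ne_zero_iff (hM : M.IsSphere) (h : Cyc M n gv ge) (e : M.E) :
    arc ge 0 n e ≠ 0 ↔ ∃ t, ge t = e := by
  constructor
  · intro h1
    obtain ⟨t, -, -, ht⟩ := arc_supp ge h1
    exact ⟨t, ht⟩
  · rintro ⟨t, rfl⟩
    rw [cyc_apply hM h]
    decide

/-- the number of edges of a cycle -/
theorem cyc_wt (hM : M.IsSphere) (h : Cyc M n gv ge) : M.wt (arc ge 0 n) = n := by
  refine le_antisymm (by simpa using arc_wt ge (Nat.zero_le n)) ?_
  have h1 : (range n).image ge ⊆ univ.filter fun e => arc ge 0 n e ≠ 0 := by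
    intro e he
    obtain ⟨t, -, rfl⟩ := mem_image.1 he
    exact mem_filter.2 ⟨mem_univ _, (cyc_ne_zero_iff hM h _).2 ⟨t, rfl⟩⟩
  have h2 : ((range n).image ge).card = n := by
    rw [card_image_of_injOn, card_range]
    intro s hs t ht hst
    have h3 := h.eeq hM hst
    rw [Nat.mod_eq_of_lt (mem_range.1 (mem_coe.1 hs)),
      Nat.mod_eq_of_lt (mem_range.1 (mem_coe.1 ht))] at h3
    exact h3
  have h3 := card_le_card h1
  rw [h2] at h3
  exact h3

/-- An even chain on the edges of a cycle is zero or contains all of them. -/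
theorem cyc_sub (hM : M.IsSphere) (h : Cyc M n gv ge) {z : M.E → ZMod 2} (hz : M.Ev z)
    (hs : ∀ e, z e ≠ 0 → ∃ t, ge t = e) : z = 0 ∨ ∀ t, z (ge t) = 1 := by
  have hn := h.n3
  have key : ∀ t, z (ge (t + 1)) = z (ge t) := by
    intro t
    have h1 := hz (gv (t + 1))
    unfold PC.dE at h1
    have hne : ge t ≠ ge (t + 1) := by
      intro h2
      have h3 := h.eeq hM h2
      rw [← Nat.mod_add_mod] at h3
      have h4 : t % n < n := Nat.mod_lt _ (by omega)
      generalize t % n = r at *
      by_cases h5 : r + 1 < n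
      · rw [Nat.mod_eq_of_lt h5] at h3
        omega
      · have h6 : r + 1 = n := by omega
        rw [h6, Nat.mod_self] at h3
        omega
    have h2 : ({ge t, ge (t + 1)} : Finset M.E) ⊆ univ.filter fun e => M.inc e (gv (t + 1)) := by
      intro e he
      rw [mem_insert, mem_singleton] at he
      rw [mem_filter]
      rcases he with rfl | rfl
      · exact ⟨mem_univ _, (h.inc t).2⟩
      · exact ⟨mem_univ _, (h.inc (t + 1)).1⟩
    rw [← sum_subset h2, sum_pair hne] at h1
    · generalize z (ge t) = a at *
      generalize z (ge (t + 1)) = b at *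
      revert a b
      decide
    · intro e he he'
      by_contra hze
      obtain ⟨s, rfl⟩ := hs e hze
      rw [mem_filter] at he
      apply he'
      rw [mem_insert, mem_singleton]
      rcases h.ends hM he.2 with h3 | h3
      · right
        have h4 := h.veq h3
        rw [← h.emod s, ← h.emod (t + 1), h4]
      · left
        have h4 := h.veq h3
        have h5 : t % n = s % n := by
          rw [← Nat.mod_add_mod t, ← Nat.mod_add_mod s] at h4
          have l1 : s % n < n := Nat.mod_lt _ (by omega)
          have l2 : t % n < n := Nat.mod_lt _ (by omega)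
          generalize s % n = a at *
          generalize t % n = b at *
          rcases Nat.lt_or_ge (a + 1) n with h6 | h6
          · rw [Nat.mod_eq_of_lt h6] at h4
            rcases Nat.lt_or_ge (b + 1) n with h7 | h7
            · rw [Nat.mod_eq_of_lt h7] at h4
              omega
            · have h8 : b + 1 = n := by omega
              rw [h8, Nat.mod_self] at h4
              omega
          · have h8 : a + 1 = n := by omega
            rw [h8, Nat.mod_self] at h4
            rcases Nat.lt_or_ge (b + 1) n with h7 | h7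
            · rw [Nat.mod_eq_of_lt h7] at h4
              omega
            · omega
        rw [← h.emod s, ← h.emod t, h5]
  have key' : ∀ t, z (ge t) = z (ge 0) := by
    intro t
    induction t with
    | zero => rfl
    | succ t ih => rw [key, ih]
  rcases zmod2_cases (z (ge 0)) with h0 | h0
  · left
    funext e
    by_contra h1
    obtain ⟨t, rfl⟩ := hs e h1
    exact h1 (by rw [key', h0]; rfl)
  · exact Or.inr fun t => by rw [key', h0]

/-- the vertices of a cycle in `A` are joined by arcs in `A` -/
theorem cyc_near (hM : M.IsSphere) (h : Cyc M n gv ge) {A : Set M.V} (hA : ∀ t, gv t ∈ A)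
    {s t k : ℕ} (hst : s ≤ t) (ht : t < n) (hk : t - s ≤ k ∨ n - (t - s) ≤ k) :
    Near M.graph A k (gv s) (gv t) := by
  have key : ∀ m s, Near M.graph A m (gv s) (gv (s + m)) := by
    intro m
    induction m with
    | zero => intro s; exact near_refl (hA s)
    | succ m ih =>
      intro s
      exact near_trans (ih s) (near_adj (hA _) (hA _)
        (inc_adj hM (h.inc (s + m)).1 (h.inc (s + m)).2 (h.succ_ne _)))
  rcases hk with hk | hk
  · have h1 := key (t - s) s
    rw [Nat.add_sub_cancel' hst] at h1
    exact near_mono h1 hk subset_rfl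
  · have h1 := key (n - (t - s)) t
    have h2 : t + (n - (t - s)) = s + n := by omega
    rw [h2, h.vper] at h1
    exact near_mono (near_symm h1) hk subset_rfl

end

/-- EXISTENCE of cycles: every nonzero even chain contains a cycle. -/
theorem exists_cyc (hM : M.IsSphere) (hS : M.Simple) {z : M.E → ZMod 2} (hz : M.Ev z)
    (h0 : z ≠ 0) : ∃ n gv ge, Cyc M n gv ge ∧ ∀ t, z (ge t) ≠ 0 := by
  by_contra hcon
  have key : ∀ m : ℕ, ∃ (v : ℕ → M.V) (e : ℕ → M.E),
      (∀ s t, s ≤ m + 1 → t ≤ m + 1 → v s = v t → s = t) ∧
      ∀ t < m + 1, z (e t) ≠ 0 ∧ M.inc (e t) (v t) ∧ M.inc (e t) (v (t + 1)) := by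
    intro m
    induction m with
    | zero =>
      obtain ⟨e0, he0⟩ : ∃ e0, z e0 ≠ 0 := by
        by_contra h
        push Not at h
        exact h0 (funext h)
      obtain ⟨x, y, hxy, hinc⟩ := hM.inc_two e0
      refine ⟨fun t => if t = 0 then x else y, fun _ => e0, ?_, ?_⟩
      · intro s t hs ht hst
        by_contra hne
        have h1 : (s = 0 ∧ t = 1) ∨ (s = 1 ∧ t = 0) := by omega
        rcases h1 with ⟨rfl, rfl⟩ | ⟨rfl, rfl⟩
        · simp only [if_true, one_ne_zero, if_false] at hst
          exact hxy hst
        · simp only [if_true, one_ne_zero, if_false] at hst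
          exact hxy hst.symm
      · intro t ht
        have h1 : t = 0 := by omega
        subst h1
        simp only [if_true, zero_add, one_ne_zero, if_false]
        exact ⟨he0, (hinc _).2 (Or.inl rfl), (hinc _).2 (Or.inr rfl)⟩
    | succ m ih =>
      obtain ⟨v, e, hinj, hpath⟩ := ih
      obtain ⟨hz1, -, hi1⟩ := hpath m (by omega)
      obtain ⟨e', he'ne, hze', hie'⟩ := ev_other hz hz1 hi1
      obtain ⟨y, hyne, hiy, -⟩ := other_end hM hie'
      by_cases hy : ∃ i ≤ m + 1, v i = y
      · exfalso
        obtain ⟨i, hi, hiv⟩ := hy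
        have him : i ≠ m + 1 := by
          rintro rfl
          exact hyne hiv.symm
        have him' : i ≠ m := by
          rintro rfl
          refine he'ne (hS e' (e i) (v (i + 1)) (v i) ?_ hie' ?_ hi1 (hpath i (by omega)).2.1)
          · intro h
            have := hinj _ _ le_rfl (by omega) h
            omega
          · rw [hiv]
            exact hiy
        refine hcon ⟨m + 1 - i + 1, fun t => v (i + t % (m + 1 - i + 1)),
          fun t => if t % (m + 1 - i + 1) = m + 1 - i then e'
            else e (i + t % (m + 1 - i + 1)), ⟨by omega, ?_, ?_, ?_, ?_⟩, ?_⟩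
        · intro t
          rw [Nat.add_mod_right]
        · intro t
          rw [Nat.add_mod_right]
        · intro s t hs ht hst
          rw [Nat.mod_eq_of_lt hs, Nat.mod_eq_of_lt ht] at hst
          have := hinj _ _ (by omega) (by omega) hst
          omega
        · intro t
          have h1 : t % (m + 1 - i + 1) < m + 1 - i + 1 := Nat.mod_lt _ (by omega)
          have h2 : (t + 1) % (m + 1 - i + 1) =
              (t % (m + 1 - i + 1) + 1) % (m + 1 - i + 1) := by
            rw [Nat.mod_add_mod]
          simp only [h2]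
          generalize t % (m + 1 - i + 1) = r at *
          by_cases h3 : r = m + 1 - i
          · subst h3
            rw [if_pos rfl, Nat.mod_self, add_zero, Nat.add_sub_cancel' (by omega), hiv]
            exact ⟨hie', hiy⟩
          · rw [if_neg h3, Nat.mod_eq_of_lt (by omega)]
            exact (hpath (i + r) (by omega)).2
        · intro t
          have h1 : t % (m + 1 - i + 1) < m + 1 - i + 1 := Nat.mod_lt _ (by omega)
          change z (if t % (m + 1 - i + 1) = m + 1 - i then e'
            else e (i + t % (m + 1 - i + 1))) ≠ 0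
          generalize t % (m + 1 - i + 1) = r at *
          by_cases h3 : r = m + 1 - i
          · rw [if_pos h3]
            exact hze'
          · rw [if_neg h3]
            exact (hpath (i + r) (by omega)).1
      · push Not at hy
        refine ⟨fun t => if t ≤ m + 1 then v t else y, fun t => if t < m + 1 then e t else e',
          ?_, ?_⟩
        · intro s t hs ht hst
          simp only [] at hst
          by_cases h1 : s ≤ m + 1
          · by_cases h2 : t ≤ m + 1
            · rw [if_pos h1, if_pos h2] at hst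
              exact hinj s t h1 h2 hst
            · rw [if_pos h1, if_neg h2] at hst
              exact absurd hst (hy s h1)
          · by_cases h2 : t ≤ m + 1
            · rw [if_neg h1, if_pos h2] at hst
              exact absurd hst.symm (hy t h2)
            · omega
        · intro t ht
          simp only []
          by_cases h1 : t < m + 1
          · rw [if_pos h1, if_pos (by omega), if_pos (by omega)]
            exact hpath t h1
          · have h2 : t = m + 1 := by omega
            subst h2
            rw [if_neg h1, if_pos le_rfl, if_neg (by omega)]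
            exact ⟨hze', hie', hiy⟩
  obtain ⟨v, e, hinj, -⟩ := key (Fintype.card M.V)
  have h1 : Function.Injective fun t : Fin (Fintype.card M.V + 1) => v t.1 := by
    intro s t hst
    exact Fin.ext (hinj _ _ (by omega) (by omega) hst)
  have h2 := Fintype.card_le_of_injective _ h1
  rw [Fintype.card_fin] at h2
  omega

end Pool.Agent.H.MP_c8cc4c_co.Sp
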