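import Mathlib
import Pool.Agent.H.MP_c8cc4c_co.S.Cyc

/-! # MP_c8cc4c_co, part S (section 5), file Bad: additivity, minimal bad chains -/

open scoped Classical
open Finset

noncomputable section

namespace Pool.Agent.H.MP_c8cc4c_co.Sp

open Pool.Agent.H.MP_c8cc4c_co.Lp

variable {M : PC} {W Q : Set M.V}

/-- `c` is admissible for `W`, `Q` -/
def Adm (M : PC) (W Q : Set M.V) (c : M.F → ZMod 2) : Prop :=
  (∀ v ∈ M.vs (M.dF c), v ∈ W) ∧ ∀ f x, M.At f x → x ∉ Q → c f = 0

theorem add_self_zmod (a : ZMod 2) : a + a = 0 := by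
  revert a
  decide

/-- Every even chain in `W` is the boundary of an admissible chain. -/
theorem adm_exists (hM : M.IsSphere) (hQ' : ConnOn M.graph Qᶜ) (hWQ : W ⊆ Q)
    {z : M.E → ZMod 2} (hz : M.Ev z) (hzW : ∀ v ∈ M.vs z, v ∈ W) :
    ∃ c, Adm M W Q c ∧ M.dF c = z := by
  obtain ⟨c0, hc0⟩ := hM.h1 z hz
  by_cases h : ∃ f x, M.At f x ∧ x ∉ Q ∧ c0 f = 1
  · obtain ⟨f, x, hfx, hx, hf⟩ := h
    refine ⟨c0 + 1, ⟨?_, ?_⟩, ?_⟩
    · rw [dF_compl hM, hc0]
      exact hzW
    · intro g y hgy hy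
      obtain ⟨n, hn⟩ := hQ'.2 x hx y hy
      have h1 : c0 f = c0 g := by
        refine near_const hM (A := Qᶜ) ?_ hn hfx hgy
        intro v hv hv'
        rw [hc0] at hv'
        exact hv (hWQ (hzW v hv'))
      rw [Pi.add_apply, Pi.one_apply, ← h1, hf]
      decide
    · rw [dF_compl hM, hc0]
  · refine ⟨c0, ⟨?_, ?_⟩, hc0⟩
    · rw [hc0]
      exact hzW
    · intro f x hfx hx
      rcases zmod2_cases (c0 f) with h1 | h1
      · exact h1
      · exact absurd ⟨f, x, hfx, hx, h1⟩ h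

theorem rho_add {m n : ℕ} (h : m < n) : rho m + n ≤ rho n := by
  unfold rho
  nlinarith

/-- a chain which is not constant around `x` has `x` on its boundary -/
theorem mem_vs_of_ne (hM : M.IsSphere) {c : M.F → ZMod 2} {x : M.V} {f g : M.F} (hf : M.At f x)
    (hg : M.At g x) (hfg : c f ≠ c g) : x ∈ M.vs (M.dF c) := by
  by_contra hx
  exact hfg (star_const hM hx hf hg)

theorem exists_at' (hM : M.IsSphere) (e : M.E) (x : M.V) : ∃ f, M.At f x := by
  obtain ⟨a, b, hab, -⟩ := hM.inc_two e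
  by_cases h : x = a
  · exact exists_at hM (x := x) (y := b) (by rw [h]; exact hab)
  · exact exists_at hM h

/-- ADDITIVITY (5.1) -/
theorem bad_split (hM : M.IsSphere) {c c1 : M.F → ZMod 2} (hb : Bad M W Q c)
    (h1 : Adm M W Q c1) (hw1 : M.wt (M.dF c1) < M.wt (M.dF c))
    (hw2 : M.wt (M.dF c + M.dF c1) < M.wt (M.dF c))
    (hn1 : ∀ v ∈ M.vs (M.dF c1), ∃ v' ∈ M.vs (M.dF c), Near M.graph W (M.wt (M.dF c)) v v')
    (hn2 : ∀ v ∈ M.vs (M.dF c + M.dF c1), ∃ v' ∈ M.vs (M.dF c),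
      Near M.graph W (M.wt (M.dF c)) v v')
    (hmin : ∀ c', M.wt (M.dF c') < M.wt (M.dF c) → ¬ Bad M W Q c') : False := by
  obtain ⟨hc1, hc2, x, hx, y, hy, hcx, hcy, hdx, hdy⟩ := hb
  have claim : ∀ d, Adm M W Q d → M.wt (M.dF d) < M.wt (M.dF c) →
      (∀ v ∈ M.vs (M.dF d), ∃ v' ∈ M.vs (M.dF c), Near M.graph W (M.wt (M.dF c)) v v') →
      ∀ f g, M.At f x → M.At g y → d f = d g := by
    intro d hd hwd hnd f g hf hg
    have far : ∀ z, (∀ v ∈ M.vs (M.dF c), ¬ Near M.graph W (rho (M.wt (M.dF c))) z v) →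
        ∀ v ∈ M.vs (M.dF d), ¬ Near M.graph W (rho (M.wt (M.dF d))) z v := by
      intro z hz v hv hzv
      obtain ⟨v', hv', hvv'⟩ := hnd v hv
      exact hz v' hv' (near_mono (near_trans hzv hvv') (rho_add hwd) subset_rfl)
    have fx := far x hdx
    have fy := far y hdy
    have nx : x ∉ M.vs (M.dF d) := fun h => fx x h (near_mono (near_refl hx) (Nat.zero_le _)
      subset_rfl)
    have ny : y ∉ M.vs (M.dF d) := fun h => fy y h (near_mono (near_refl hy) (Nat.zero_le _)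
      subset_rfl)
    have cx : ∀ f', M.At f' x → d f' = d f := fun f' hf' => star_const hM nx hf' hf
    have cy : ∀ g', M.At g' y → d g' = d g := fun g' hg' => star_const hM ny hg' hg
    rcases zmod2_cases (d f) with h3 | h3 <;> rcases zmod2_cases (d g) with h4 | h4
    · rw [h3, h4]
    · exact absurd ⟨hd.1, hd.2, y, hy, x, hx, fun g' hg' => by rw [cy g' hg', h4],
        fun f' hf' => by rw [cx f' hf', h3], fy, fx⟩ (hmin d hwd)
    · exact absurd ⟨hd.1, hd.2, x, hx, y, hy, fun f' hf' => by rw [cx f' hf', h3],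
        fun g' hg' => by rw [cy g' hg', h4], fx, fy⟩ (hmin d hwd)
    · rw [h3, h4]
  obtain ⟨e, -⟩ : ∃ e, M.dF c e ≠ 0 := by
    by_contra h
    push Not at h
    have h2 : M.dF c = 0 := funext h
    rw [h2, (wt_eq_zero _).2 rfl] at hw1
    omega
  obtain ⟨f, hf⟩ := exists_at' hM e x
  obtain ⟨g, hg⟩ := exists_at' hM e y
  have e1 := claim c1 h1 hw1 hn1 f g hf hg
  have hA2 : Adm M W Q (c + c1) := by
    constructor
    · intro v hv
      rw [dF_add] at hv
      rcases vs_add _ _ hv with h | h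
      · exact hc1 v h
      · exact h1.1 v h
    · intro f' x' hf' hx'
      rw [Pi.add_apply, hc2 f' x' hf' hx', h1.2 f' x' hf' hx', add_zero]
  have e2 := claim (c + c1) hA2 (by rw [dF_add]; exact hw2) (by rw [dF_add]; exact hn2)
    f g hf hg
  rw [Pi.add_apply, Pi.add_apply, e1, hcx f hf, hcy g hg] at e2
  generalize c1 g = a at e2
  revert a
  decide

/-- MINIMAL BAD CHAINS (5.2) -/
theorem min_cycle (hM : M.IsSphere) (hS : M.Simple) (hQ : Q.Nonempty)
    (hQ' : ConnOn M.graph Qᶜ) (hWQ : W ⊆ Q) {c : M.F → ZMod 2} (hb : Bad M W Q c)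
    (hmin : ∀ c', M.wt (M.dF c') < M.wt (M.dF c) → ¬ Bad M W Q c') :
    ∃ gv ge, Cyc M (M.wt (M.dF c)) gv ge ∧ (∀ e, M.dF c e ≠ 0 ↔ ∃ t, ge t = e) ∧
      ∀ s t k, s ≤ t → t < M.wt (M.dF c) → Near M.graph W k (gv s) (gv t) →
        t - s ≤ k ∨ M.wt (M.dF c) - (t - s) ≤ k := by
  have hbW : ∀ v ∈ M.vs (M.dF c), v ∈ W := hb.1
  have h0 : M.dF c ≠ 0 := by
    intro h
    obtain ⟨-, -, x, -, y, -, hcx, hcy, -, -⟩ := hb
    obtain ⟨q, hq⟩ := hQ
    obtain ⟨o, ho⟩ := hQ'.1
    have hqo : q ≠ o := by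
      rintro rfl
      exact ho hq
    have hex : ∀ z : M.V, ∃ f, M.At f z := by
      intro z
      by_cases hz : z = q
      · exact exists_at hM (x := z) (y := o) (by rw [hz]; exact hqo)
      · exact exists_at hM hz
    obtain ⟨f, hf⟩ := hex x
    obtain ⟨g, hg⟩ := hex y
    have h1 := const_of_dF hM h f g
    rw [hcx f hf, hcy g hg] at h1
    exact one_ne_zero h1
  obtain ⟨n, gv, ge, hcyc, hge⟩ := exists_cyc hM hS (ev_dF hM c) h0
  have n3 := hcyc.n3
  -- the boundary is the cycle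
  have hz : arc ge 0 n = M.dF c := by
    by_contra hne
    have hsub : ∀ e, arc ge 0 n e ≠ 0 → M.dF c e ≠ 0 := by
      intro e he
      obtain ⟨t, rfl⟩ := (cyc_ne_zero_iff hM hcyc e).1 he
      exact hge t
    have hvs : ∀ v ∈ M.vs (arc ge 0 n), v ∈ M.vs (M.dF c) := by
      rintro v ⟨e, he, hev⟩
      exact ⟨e, hsub e he, hev⟩
    have hvs2 : ∀ v ∈ M.vs (M.dF c + arc ge 0 n), v ∈ M.vs (M.dF c) := by
      intro v hv
      rcases vs_add _ _ hv with h | h
      · exact h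
      · exact hvs v h
    obtain ⟨c1, hA1, hd1⟩ := adm_exists hM hQ' hWQ (cyc_ev hM hcyc)
      (fun v hv => hbW v (hvs v hv))
    have hw := wt_inter (M.dF c) (arc ge 0 n) hsub
    have hwn := cyc_wt hM hcyc
    have hw0 : M.wt (M.dF c + arc ge 0 n) ≠ 0 := by
      intro h
      rw [wt_eq_zero] at h
      apply hne
      have h2 : M.dF c = M.dF c + (arc ge 0 n + arc ge 0 n) := by
        rw [zmod_fun_add_self, add_zero]
      rw [h2, ← add_assoc, h, zero_add]
    refine bad_split hM hb hA1 ?_ ?_ ?_ ?_ hmin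
    · rw [hd1]
      omega
    · rw [hd1]
      omega
    · rw [hd1]
      intro v hv
      exact ⟨v, hvs v hv, near_mono (near_refl (hbW v (hvs v hv))) (Nat.zero_le _) subset_rfl⟩
    · rw [hd1]
      intro v hv
      exact ⟨v, hvs2 v hv, near_mono (near_refl (hbW v (hvs2 v hv))) (Nat.zero_le _) subset_rfl⟩
  have hn : M.wt (M.dF c) = n := by
    rw [← hz]
    exact cyc_wt hM hcyc
  rw [hn]
  refine ⟨gv, ge, hcyc, ?_, ?_⟩
  · intro e
    rw [← hz]
    exact cyc_ne_zero_iff hM hcyc e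
  · intro s t k hst ht hnear
    by_contra hcon
    push Not at hcon
    obtain ⟨hk1, hk2⟩ := hcon
    obtain ⟨σ, hσd, hσw, hσ⟩ := path_chain hM hnear
    have hgvs : ∀ t, gv t ∈ M.vs (M.dF c) := fun t => ⟨ge t, hge t, (hcyc.inc t).1⟩
    have harc : ∀ i j v, v ∈ M.vs (arc ge i j) → v ∈ M.vs (M.dF c) := by
      rintro i j v ⟨e, he, hev⟩
      obtain ⟨t, -, -, rfl⟩ := arc_supp ge he
      exact ⟨ge t, hge t, hev⟩
    have hσv : ∀ v ∈ M.vs σ, v ∈ W ∧ Near M.graph W k v (gv s) := by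
      rintro v ⟨e, he, hev⟩
      obtain ⟨h3, h4⟩ := hσ e he v hev
      exact ⟨h3, near_symm h4⟩
    have hsum : M.dF c = arc ge 0 s + arc ge s t + arc ge t n := by
      rw [arc_add ge (Nat.zero_le s) hst, arc_add ge (Nat.zero_le t) ht.le, hz]
    have hz2 : M.dF c + (arc ge s t + σ) = arc ge 0 s + arc ge t n + σ := by
      rw [hsum]
      funext e
      simp only [Pi.add_apply]
      generalize arc ge 0 s e = a
      generalize arc ge s t e = b
      generalize arc ge t n e = d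
      generalize σ e = u
      revert a b d u
      decide
    have hev : M.Ev (arc ge s t + σ) := by
      intro v
      rw [dE_add, arc_dE hM hcyc hst, hσd, zmod_fun_add_self]
      rfl
    have hvs1 : ∀ v ∈ M.vs (arc ge s t + σ), v ∈ W ∧ ∃ v' ∈ M.vs (M.dF c),
        Near M.graph W n v v' := by
      intro v hv
      rcases vs_add _ _ hv with h | h
      · have h3 := harc _ _ v h
        exact ⟨hbW v h3, v, h3, near_mono (near_refl (hbW v h3)) (Nat.zero_le _) subset_rfl⟩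
      · obtain ⟨h3, h4⟩ := hσv v h
        exact ⟨h3, gv s, hgvs s, near_mono h4 (by omega) subset_rfl⟩
    have hvs2 : ∀ v ∈ M.vs (arc ge 0 s + arc ge t n + σ), ∃ v' ∈ M.vs (M.dF c),
        Near M.graph W n v v' := by
      intro v hv
      rcases vs_add _ _ hv with h | h
      · rcases vs_add _ _ h with h | h
        · have h3 := harc _ _ v h
          exact ⟨v, h3, near_mono (near_refl (hbW v h3)) (Nat.zero_le _) subset_rfl⟩
        · have h3 := harc _ _ v h
          exact ⟨v, h3, near_mono (near_refl (hbW v h3)) (Nat.zero_le _) subset_rfl⟩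
      · obtain ⟨h3, h4⟩ := hσv v h
        exact ⟨gv s, hgvs s, near_mono h4 (by omega) subset_rfl⟩
    obtain ⟨c1, hA1, hd1⟩ := adm_exists hM hQ' hWQ hev (fun v hv => (hvs1 v hv).1)
    have w1 := wt_add_le (arc ge s t) σ
    have w2 := arc_wt ge hst
    have w3 := wt_add_le (arc ge 0 s + arc ge t n) σ
    have w4 := wt_add_le (arc ge 0 s) (arc ge t n)
    have w5 := arc_wt ge (Nat.zero_le s)
    have w6 := arc_wt ge ht.le
    refine bad_split hM hb hA1 ?_ ?_ ?_ ?_ hmin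
    · rw [hd1, hn]
      omega
    · rw [hd1, hn, hz2]
      omega
    · rw [hd1, hn]
      intro v hv
      exact (hvs1 v hv).2
    · rw [hd1, hn, hz2]
      exact hvs2

end Pool.Agent.H.MP_c8cc4c_co.Sp
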