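import Mathlib
import Pool.Agent.H.MP_c8cc4c_co.S.Bad

/-! # MP_c8cc4c_co, part S (section 5), file Step: one step of the static cutting -/

open scoped Classical
open Finset

noncomputable section

namespace Pool.Agent.H.MP_c8cc4c_co.Sp

open Pool.Agent.H.MP_c8cc4c_co.Lp

variable {M : PC} {W Q : Set M.V} {l1 : ℕ}

/-- a disc bounded by an isometric cycle -/
structure Disc (M : PC) (Q : Set M.V) (l1 : ℕ) (c : M.F → ZMod 2) (n : ℕ) (gv : ℕ → M.V)
    (ge : ℕ → M.E) : Prop where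
  cyc : Cyc M n gv ge
  even : Even n
  n4 : 4 ≤ n
  nl : n ≤ l1
  bd : ∀ e, M.dF c e ≠ 0 ↔ ∃ t, ge t = e
  iso : ∀ s t k, s ≤ t → t < n → Near M.graph Q k (gv s) (gv t) → t - s ≤ k ∨ n - (t - s) ≤ k
  inQ : ∀ f x, c f ≠ 0 → M.At f x → x ∈ Q
  edge : ∀ e, (∀ f, M.bd f e → c f = 1) → ∃ x, M.inc e x ∧ x ∈ M.intr c

theorem Disc.near {c : M.F → ZMod 2} {n : ℕ} {gv : ℕ → M.V} {ge : ℕ → M.E}
    (h : Disc M Q l1 c n gv ge) {s t k : ℕ} (hst : Near M.graph Q k (gv s) (gv t)) :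
    ∃ s' t', s' ≤ t' ∧ t' < n ∧ (t' - s' ≤ k ∨ n - (t' - s') ≤ k) ∧
      ((gv s' = gv s ∧ gv t' = gv t) ∨ (gv s' = gv t ∧ gv t' = gv s)) := by
  have h3 := h.cyc.n3
  have ls : s % n < n := Nat.mod_lt _ (by omega)
  have lt : t % n < n := Nat.mod_lt _ (by omega)
  rcases Nat.le_total (s % n) (t % n) with h1 | h1
  · refine ⟨s % n, t % n, h1, lt, h.iso _ _ _ h1 lt ?_,
      Or.inl ⟨h.cyc.vmod s, h.cyc.vmod t⟩⟩
    rw [h.cyc.vmod, h.cyc.vmod]
    exact hst
  · refine ⟨t % n, s % n, h1, ls, h.iso _ _ _ h1 ls ?_,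
      Or.inr ⟨h.cyc.vmod t, h.cyc.vmod s⟩⟩
    rw [h.cyc.vmod, h.cyc.vmod]
    exact near_symm hst

/-- a vertex of a face of the disc which is not in the interior is on the cycle -/
theorem Disc.on_cycle (hM : M.IsSphere) {c : M.F → ZMod 2} {n : ℕ} {gv : ℕ → M.V}
    {ge : ℕ → M.E} (h : Disc M Q l1 c n gv ge) {v : M.V} (hv : v ∉ M.intr c) {f : M.F}
    (hf : M.At f v) (hcf : c f = 1) : ∃ t, gv t = v := by
  have h1 : ∃ g, M.At g v ∧ c g ≠ 1 := by
    by_contra hcon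
    push Not at hcon
    exact hv hcon
  obtain ⟨g, hg, hcg⟩ := h1
  obtain ⟨e, he, hev⟩ := mem_vs_of_ne hM (c := c) hf hg
    (by rw [hcf]; exact fun h2 => hcg h2.symm)
  obtain ⟨t, rfl⟩ := (h.bd e).1 he
  rcases h.cyc.ends hM hev with h2 | h2
  · exact ⟨t, h2.symm⟩
  · exact ⟨t + 1, h2.symm⟩

/-- the vertices of the cycle are not in the interior -/
theorem Disc.gv_notin (hM : M.IsSphere) {c : M.F → ZMod 2} {n : ℕ} {gv : ℕ → M.V}
    {ge : ℕ → M.E} (h : Disc M Q l1 c n gv ge) (t : ℕ) : gv t ∉ M.intr c := by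
  intro hi
  obtain ⟨f, g, -, hg, -, hcg⟩ := (dF_ne_zero_iff hM c).1 ((h.bd _).2 ⟨t, rfl⟩)
  have h1 := hi g ⟨_, hg, (h.cyc.inc t).1⟩
  rw [hcg] at h1
  exact one_ne_zero h1.symm

/-- the state of the static cutting -/
structure St (M : PC) (Q : Set M.V) (l1 : ℕ) (D : Set (M.F → ZMod 2)) (W : Set M.V) :
    Prop where
  disc : ∀ c ∈ D, ∃ n gv ge, Disc M Q l1 c n gv ge
  W_eq : ∀ x, x ∈ W ↔ x ∈ Q ∧ ∀ c ∈ D, x ∉ M.intr c
  conn : ConnOn M.graph W
  near : ∀ x ∈ W, ∀ y ∈ W, ∀ k, Near M.graph Q k x y → Near M.graph W k x y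
  lam : ∀ c ∈ D, ∀ c' ∈ D, (∀ f, c f ≠ 0 → c' f = 0) ∨ (∀ f, c f ≠ 0 → c' f ≠ 0) ∨
    ∀ f, c' f ≠ 0 → c f ≠ 0

/-- distances after removal of the interior of a disc -/
theorem near_remove (hM : M.IsSphere) (hWQ : W ⊆ Q) {c : M.F → ZMod 2} {n : ℕ}
    {gv : ℕ → M.V} {ge : ℕ → M.E} (h : Disc M Q l1 c n gv ge) (hgW : ∀ t, gv t ∈ W) (k : ℕ) :
    ∀ x y, x ∉ M.intr c → y ∉ M.intr c → Near M.graph W k x y →
      Near M.graph {v ∈ W | v ∉ M.intr c} k x y := by
  have hg' : ∀ t, gv t ∈ {v ∈ W | v ∉ M.intr c} := fun t => ⟨hgW t, h.gv_notin hM t⟩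
  induction k using Nat.strong_induction_on with
  | _ k ih =>
    intro x y hx hy hn
    have hxW : x ∈ {v ∈ W | v ∉ M.intr c} := ⟨near_left hn, hx⟩
    rcases k with _ | k
    · rw [near_zero] at hn ⊢
      exact ⟨hn.1, hxW⟩
    · rcases near_succ.1 hn with h1 | ⟨hxw, z, hxz, hzy⟩
      · exact near_mono (ih k (Nat.lt_succ_self _) x y hx hy h1) (Nat.le_succ _) subset_rfl
      · by_cases hz : z ∈ M.intr c
        · -- the walk enters the disc
          obtain ⟨u, v, k1, l, hkl, hzu, huv, hv, hvy⟩ := near_exit hzy hz hy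
          obtain ⟨f, hf1, hf2⟩ := adj_face hM hxz
          obtain ⟨s, rfl⟩ := h.on_cycle hM hx hf1 (hz f hf2)
          have hu : u ∈ M.intr c := (near_right hzu).2
          obtain ⟨g, hg1, hg2⟩ := adj_face hM huv
          obtain ⟨t, rfl⟩ := h.on_cycle hM hv hg2 (hu g hg1)
          have h2 : Near M.graph W (1 + k1 + 1) (gv s) (gv t) := by
            refine near_trans (near_trans (near_adj hxw (near_left hzy) hxz)
              (near_mono hzu le_rfl Set.inter_subset_left)) (near_adj ?_ (near_left hvy) huv)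
            exact (near_right hzu).1
          have h3 : Near M.graph {v ∈ W | v ∉ M.intr c} (1 + k1 + 1) (gv s) (gv t) := by
            obtain ⟨s', t', hst, ht, hk, ⟨e1, e2⟩ | ⟨e1, e2⟩⟩ := h.near (near_mono h2 le_rfl hWQ)
            · rw [← e1, ← e2]
              exact cyc_near hM h.cyc hg' hst ht hk
            · rw [← e1, ← e2]
              exact near_symm (cyc_near hM h.cyc hg' hst ht hk)
          exact near_mono (near_trans h3 (ih l (by omega) _ _ hv hy hvy)) (by omega) subset_rfl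
        · have h2 := ih k (Nat.lt_succ_self _) z y hz hy hzy
          exact near_mono (near_trans (near_adj hxW (near_left h2) hxz) h2) (by omega) subset_rfl

/-- laminarity: a disc and a chain with its boundary outside the interior of the disc -/
theorem lam_step (hM : M.IsSphere) {c c' : M.F → ZMod 2} {n : ℕ}
    {gv : ℕ → M.V} {ge : ℕ → M.E} (h : Disc M Q l1 c n gv ge) (h0 : ∃ f, c' f = 0)
    (hb : ∀ v ∈ M.vs (M.dF c'), v ∉ M.intr c) :
    (∀ f, c f ≠ 0 → c' f = 0) ∨ ∀ f, c f ≠ 0 → c' f ≠ 0 := by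
  have hsub : ∀ e, M.dF (fun f => c f * c' f) e ≠ 0 → ∃ t, ge t = e := by
    intro e he
    rw [← h.bd]
    intro h1
    obtain ⟨f, g, hf, hg, hcf, hcg⟩ := (dF_ne_zero_iff hM _).1 he
    change c f * c' f = 1 at hcf
    change c g * c' g = 0 at hcg
    have h2 : c f = 1 := by
      rcases zmod2_cases (c f) with h3 | h3
      · rw [h3, zero_mul] at hcf
        exact absurd hcf.symm one_ne_zero
      · exact h3
    have h2' : c' f = 1 := by
      rw [h2, one_mul] at hcf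
      exact hcf
    have hall : ∀ g', M.bd g' e → c g' = 1 := by
      intro g' hg'
      rw [← (dF_zero_iff hM c).1 h1 f g' hf hg', h2]
    have h3 : c' g = 0 := by
      rw [hall g hg, one_mul] at hcg
      exact hcg
    obtain ⟨x, hex, hx⟩ := h.edge e hall
    exact hb x ⟨e, (dF_ne_zero_iff hM c').2 ⟨f, g, hf, hg, h2', h3⟩, hex⟩ hx
  obtain ⟨f1, g1, -, -, hf1, hg1⟩ := (dF_ne_zero_iff hM c).1 ((h.bd (ge 0)).2 ⟨0, rfl⟩)
  rcases cyc_sub hM h.cyc (ev_dF hM _) hsub with hz | hz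
  · left
    obtain ⟨f0, hf0⟩ := h0
    intro f hf
    have h1 : c f * c' f = c f0 * c' f0 := const_of_dF hM hz f f0
    rw [hf0, mul_zero, zmod2_ne_zero.1 hf, one_mul] at h1
    exact h1
  · right
    have hd : M.dF (fun f => c f * c' f) = M.dF c := by
      funext e
      by_cases he : ∃ t, ge t = e
      · obtain ⟨t, rfl⟩ := he
        rw [hz t, zmod2_ne_zero.1 ((h.bd _).2 ⟨t, rfl⟩)]
      · have e1 : M.dF (fun f => c f * c' f) e = 0 := by
          by_contra h2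
          exact he (hsub e h2)
        have e2 : M.dF c e = 0 := by
          by_contra h2
          exact he ((h.bd e).1 h2)
        rw [e1, e2]
    rcases dF_inj hM hd with h1 | h1
    · intro f hf hf'
      have h2 : c f * c' f = c f := congrFun h1 f
      rw [hf', mul_zero] at h2
      exact hf h2.symm
    · exfalso
      have h2 : c g1 * c' g1 = c g1 + 1 := congrFun h1 g1
      rw [hg1, zero_mul, zero_add] at h2
      exact one_ne_zero h2.symm

/-- ONE STEP (5.3) -/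
theorem st_step (hM : M.IsSphere) (hQd : M.Quad) (hS : M.Simple) (hQ : Q.Nonempty)
    (hQ' : ConnOn M.graph Qᶜ) {D : Set (M.F → ZMod 2)} (hst : St M Q l1 D W)
    (hbad : ∃ c, M.wt (M.dF c) ≤ l1 ∧ Bad M W Q c) :
    ∃ c, St M Q l1 (insert c D) {v ∈ W | v ∉ M.intr c} ∧ ∃ x ∈ W, x ∈ M.intr c := by
  -- a bad chain of minimal weight
  obtain ⟨c, hcl, hb, hmin⟩ : ∃ c, M.wt (M.dF c) ≤ l1 ∧ Bad M W Q c ∧
      ∀ c', M.wt (M.dF c') < M.wt (M.dF c) → ¬ Bad M W Q c' := by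
    have hex : ∃ m, ∃ c, M.wt (M.dF c) = m ∧ m ≤ l1 ∧ Bad M W Q c := by
      obtain ⟨c, h1, h2⟩ := hbad
      exact ⟨_, c, rfl, h1, h2⟩
    obtain ⟨c, h1, h2, h3⟩ := Nat.find_spec hex
    refine ⟨c, h1.le.trans h2, h3, ?_⟩
    intro c' hlt hb'
    rw [h1] at hlt
    exact Nat.find_min hex hlt ⟨c', rfl, hlt.le.trans h2, hb'⟩
  have hWQ : W ⊆ Q := fun x hx => ((hst.W_eq x).1 hx).1
  obtain ⟨gv, ge, hcyc, hbd, hiso⟩ := min_cycle hM hS hQ hQ' hWQ hb hmin
  obtain ⟨n, hn⟩ : ∃ n, n = M.wt (M.dF c) := ⟨_, rfl⟩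
  rw [← hn] at hcyc hiso hcl
  have n3 := hcyc.n3
  have hev : Even n := by
    rw [hn]
    exact even_wt hM hQd (ev_dF hM c)
  have n4 : 4 ≤ n := by
    obtain ⟨k, hk⟩ := hev
    omega
  have hgW : ∀ t, gv t ∈ W := fun t => hb.1 _ ⟨ge t, (hbd _).2 ⟨t, rfl⟩, (hcyc.inc t).1⟩
  have hiso' : ∀ s t k, s ≤ t → t < n → Near M.graph Q k (gv s) (gv t) →
      t - s ≤ k ∨ n - (t - s) ≤ k := by
    intro s t k hst' ht hnear
    exact hiso s t k hst' ht (hst.near _ (hgW s) _ (hgW t) k hnear)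
  have hedge : ∀ e, (∀ f, M.bd f e → c f = 1) → ∃ x, M.inc e x ∧ x ∈ M.intr c := by
    intro e he
    by_contra hcon
    push Not at hcon
    obtain ⟨f, hf⟩ := exists_face hM e
    have hon : ∀ x, M.inc e x → ∃ t, gv t = x := by
      intro x hx
      have h1 : ∃ g, M.At g x ∧ c g ≠ 1 := by
        by_contra hcon'
        push Not at hcon'
        exact hcon x hx hcon'
      obtain ⟨g, hg, hcg⟩ := h1
      obtain ⟨e', he', hev'⟩ := mem_vs_of_ne hM (c := c) (f := f) ⟨e, hf, hx⟩ hg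
        (by rw [he f hf]; exact fun h2 => hcg h2.symm)
      obtain ⟨t, rfl⟩ := (hbd e').1 he'
      rcases hcyc.ends hM hev' with h2 | h2
      · exact ⟨t, h2.symm⟩
      · exact ⟨t + 1, h2.symm⟩
    obtain ⟨a, b, hab, hinc⟩ := hM.inc_two e
    obtain ⟨s, hs⟩ := hon a ((hinc a).2 (Or.inl rfl))
    obtain ⟨t, ht⟩ := hon b ((hinc b).2 (Or.inr rfl))
    have hea : M.inc e (gv s) := by rw [hs]; exact (hinc a).2 (Or.inl rfl)
    have heb : M.inc e (gv t) := by rw [ht]; exact (hinc b).2 (Or.inr rfl)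
    have hst' : gv s ≠ gv t := by rw [hs, ht]; exact hab
    -- the two indices are consecutive
    have key : ∀ s t, s < n → t < n → s ≤ t → M.inc e (gv s) → M.inc e (gv t) → gv s ≠ gv t →
        False := by
      intro s t hs ht hst hes het hne
      have hnear : Near M.graph W 1 (gv s) (gv t) :=
        near_adj (hgW s) (hgW t) (inc_adj hM hes het hne)
      have hst2 : s ≠ t := by
        rintro rfl
        exact hne rfl
      have hcase : t = s + 1 ∨ (s = 0 ∧ t = n - 1) := by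
        rcases hiso s t 1 hst ht hnear with h1 | h1 <;> omega
      have hee : ∃ r, ge r = e := by
        rcases hcase with h1 | ⟨h1, h2⟩
        · refine ⟨s, hS _ _ _ _ hne (hcyc.inc s).1 ?_ hes het⟩
          rw [h1]
          exact (hcyc.inc s).2
        · refine ⟨n - 1, hS _ _ _ _ hne ?_ ?_ hes het⟩
          · have h3 := (hcyc.inc (n - 1)).2
            have h4 : n - 1 + 1 = 0 + n := by omega
            rw [h4, hcyc.vper, ← h1] at h3
            exact h3
          · rw [h2]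
            exact (hcyc.inc (n - 1)).1
      have h1 := (hbd e).2 hee
      obtain ⟨f', g', -, hg', -, hcg'⟩ := (dF_ne_zero_iff hM c).1 h1
      rw [he g' hg'] at hcg'
      exact one_ne_zero hcg'
    have ls : s % n < n := Nat.mod_lt _ (by omega)
    have lt : t % n < n := Nat.mod_lt _ (by omega)
    rw [← hcyc.vmod s] at hea hst'
    rw [← hcyc.vmod t] at heb hst'
    rcases Nat.le_total (s % n) (t % n) with h1 | h1
    · exact key _ _ ls lt h1 hea heb hst'
    · exact key _ _ lt ls h1 heb hea hst'.symm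
  have hdisc : Disc M Q l1 c n gv ge :=
    { cyc := hcyc
      even := hev
      n4 := n4
      nl := hcl
      bd := hbd
      iso := hiso'
      inQ := by
        intro f x hf hx
        by_contra hxQ
        exact hf (hb.2.1 f x hx hxQ)
      edge := hedge }
  have hnear := near_remove hM hWQ hdisc hgW
  obtain ⟨hb1, hb2, x, hx, y, hy, hcx, hcy, -, -⟩ := hb
  refine ⟨c, ⟨?_, ?_, ?_, ?_, ?_⟩, x, hx, hcx⟩
  · intro c' hc'
    rcases hc' with rfl | hc'
    · exact ⟨n, gv, ge, hdisc⟩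
    · exact hst.disc c' hc'
  · intro v
    constructor
    · rintro ⟨h1, h2⟩
      refine ⟨hWQ h1, ?_⟩
      rintro c' (rfl | hc')
      · exact h2
      · exact ((hst.W_eq v).1 h1).2 c' hc'
    · rintro ⟨h1, h2⟩
      exact ⟨(hst.W_eq v).2 ⟨h1, fun c' hc' => h2 c' (Or.inr hc')⟩, h2 c (Or.inl rfl)⟩
  · refine ⟨⟨gv 0, hgW 0, hdisc.gv_notin hM 0⟩, ?_⟩
    rintro u ⟨huW, hu⟩ v ⟨hvW, hv⟩
    obtain ⟨k, hk⟩ := hst.conn.2 u huW v hvW
    exact ⟨k, hnear k u v hu hv hk⟩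
  · rintro u ⟨huW, hu⟩ v ⟨hvW, hv⟩ k hk
    exact hnear k u v hu hv (hst.near u huW v hvW k hk)
  · obtain ⟨-, g0, -, -, -, hg0⟩ := (dF_ne_zero_iff hM c).1 ((hbd (ge 0)).2 ⟨0, rfl⟩)
    have hnew : ∀ c' ∈ D, (∀ f, c' f ≠ 0 → c f = 0) ∨ ∀ f, c' f ≠ 0 → c f ≠ 0 := by
      intro c' hc'
      obtain ⟨n', gv', ge', hd'⟩ := hst.disc c' hc'
      refine lam_step hM hd' ⟨g0, hg0⟩ ?_
      intro v hv
      exact ((hst.W_eq v).1 (hb1 v hv)).2 c' hc'
    rintro c1 (rfl | hc1) c2 (rfl | hc2)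
    · exact Or.inr (Or.inl fun f hf => hf)
    · rcases hnew c2 hc2 with h | h
      · left
        intro f hf
        by_contra h2
        exact hf (h f h2)
      · exact Or.inr (Or.inr h)
    · rcases hnew c1 hc1 with h | h
      · exact Or.inl h
      · exact Or.inr (Or.inl h)
    · exact hst.lam c1 hc1 c2 hc2

/-- the end of the static cutting -/
theorem st_final (hM : M.IsSphere) (hQd : M.Quad) (hS : M.Simple) (hQ : ConnOn M.graph Q)
    (hQ' : ConnOn M.graph Qᶜ) (l1 : ℕ) :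
    ∃ D W, St M Q l1 D W ∧ ∀ c, M.wt (M.dF c) ≤ l1 → ¬ Bad M W Q c := by
  have key : ∀ m : ℕ, ∀ (D : Set (M.F → ZMod 2)) (W : Set M.V), W.ncard ≤ m → St M Q l1 D W →
      ∃ D W, St M Q l1 D W ∧ ∀ c, M.wt (M.dF c) ≤ l1 → ¬ Bad M W Q c := by
    intro m
    induction m with
    | zero =>
      intro D W hm hst
      have h1 : 0 < W.ncard := (Set.ncard_pos (Set.toFinite W)).2 hst.conn.1
      omega
    | succ m ih =>
      intro D W hm hst
      by_cases hbad : ∃ c, M.wt (M.dF c) ≤ l1 ∧ Bad M W Q c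
      · obtain ⟨c, hc, x, hxW, hx⟩ := st_step hM hQd hS hQ.1 hQ' hst hbad
        refine ih _ _ ?_ hc
        have h1 : {v ∈ W | v ∉ M.intr c} ⊂ W := by
          refine ⟨fun v hv => hv.1, fun h2 => (h2 hxW).2 hx⟩
        have h2 := Set.ncard_lt_ncard h1 (Set.toFinite W)
        omega
      · push Not at hbad
        exact ⟨D, W, hst, hbad⟩
  refine key _ ∅ Q le_rfl ⟨?_, ?_, hQ, fun x _ y _ k h => h, ?_⟩
  · intro c hc
    exact absurd hc (Set.notMem_empty c)
  · intro x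
    exact ⟨fun h => ⟨h, fun c hc => absurd hc (Set.notMem_empty c)⟩, fun h => h.1⟩
  · intro c hc
    exact absurd hc (Set.notMem_empty c)

end Pool.Agent.H.MP_c8cc4c_co.Sp
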