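import Mathlib
import Pool.Agent.H.MP_c8cc4c_co.S.Step

/-! # MP_c8cc4c_co, part S (section 5), file Final: the theorem of part S -/

open scoped Classical
open Finset

noncomputable section

namespace Pool.Agent.H.MP_c8cc4c_co.Sp

open Pool.Agent.H.MP_c8cc4c_co.Lp

variable {M : PC} {W Q : Set M.V} {l1 : ℕ}

/-- maximal elements of a family of chains -/
def IsMx (D : Set (M.F → ZMod 2)) (c : M.F → ZMod 2) : Prop :=
  c ∈ D ∧ ∀ c' ∈ D, (∀ f, c f ≠ 0 → c' f ≠ 0) → c' = c

theorem exists_mx (D : Set (M.F → ZMod 2)) {c : M.F → ZMod 2} (hc : c ∈ D) :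
    ∃ c', IsMx D c' ∧ ∀ f, c f ≠ 0 → c' f ≠ 0 := by
  obtain ⟨c', ⟨hc', hcc'⟩, hmax⟩ := Set.exists_max_image
    {c' | c' ∈ D ∧ ∀ f, c f ≠ 0 → c' f ≠ 0} (fun c' => (univ.filter fun f => c' f ≠ 0).card)
    (Set.toFinite _) ⟨c, hc, fun f h => h⟩
  refine ⟨c', ⟨hc', ?_⟩, hcc'⟩
  intro c2 hc2 h2
  have h3 := hmax c2 ⟨hc2, fun f hf => h2 f (hcc' f hf)⟩
  have h4 : (univ.filter fun f => c' f ≠ 0) = univ.filter fun f => c2 f ≠ 0 := by
    apply eq_of_subset_of_card_le _ h3
    intro f hf
    rw [mem_filter] at hf ⊢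
    exact ⟨mem_univ _, h2 f hf.2⟩
  funext f
  have h5 : c' f ≠ 0 ↔ c2 f ≠ 0 := by
    have h6 := Finset.ext_iff.1 h4 f
    rw [mem_filter, mem_filter] at h6
    simpa using h6
  rcases zmod2_cases (c' f) with h7 | h7
  · rw [h7]
    by_contra h8
    exact h5.2 h8 h7
  · rw [h7]
    exact zmod2_ne_zero.1 (h5.1 (by rw [h7]; exact one_ne_zero))

theorem st_out (hM : M.IsSphere) {D : Set (M.F → ZMod 2)} (hst : St M Q l1 D W)
    (hnb : ∀ c, M.wt (M.dF c) ≤ l1 → ¬ Bad M W Q c) : ∃ Mo : Mouths M, CutOut M Q l1 Mo := by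
  have hd : ∀ i : {c : M.F → ZMod 2 // IsMx D c}, ∃ n gv ge, Disc M Q l1 i.1 n gv ge :=
    fun i => hst.disc i.1 i.2.1
  choose n gv ge hd using hd
  have hnn : ∀ i, 2 * (n i / 4 + (n i / 2 - n i / 4)) = n i := by
    intro i
    obtain ⟨k, hk⟩ := (hd i).even
    have := (hd i).n4
    omega
  let Mo : Mouths M :=
    { I := {c : M.F → ZMod 2 // IsMx D c}
      finI := Fintype.ofFinite _
      a := fun i => n i / 4
      b := fun i => n i / 2 - n i / 4
      ha := by
        intro i
        have := (hd i).n4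
        omega
      hab := by
        intro i
        have := (hd i).n4
        omega
      hba := by
        intro i
        have := (hd i).n4
        omega
      c := fun i => i.1
      gv := gv
      ge := ge
      gv_per := by
        intro i t
        rw [hnn]
        exact (hd i).cyc.vper t
      ge_per := by
        intro i t
        rw [hnn]
        exact (hd i).cyc.eper t
      gv_inj := by
        intro i s t hs ht hst'
        rw [hnn] at hs ht
        exact (hd i).cyc.inj s t hs ht hst'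
      ge_inc := fun i t => (hd i).cyc.inc t
      dc := fun i e => (hd i).bd e
      disj := by
        intro i j f hi hj
        apply Subtype.ext
        rcases hst.lam i.1 i.2.1 j.1 j.2.1 with h | h | h
        · exact absurd (h f hi) hj
        · exact (i.2.2 j.1 j.2.1 h).symm
        · exact j.2.2 i.1 i.2.1 h
      edge := fun i e he => (hd i).edge e he }
  have hn : ∀ i : Mo.I, Mo.n i = n i := hnn
  -- the real vertices
  have hW : Q ∩ Mo.Real = W := by
    ext x
    rw [hst.W_eq]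
    constructor
    · rintro ⟨hxQ, hx⟩
      refine ⟨hxQ, ?_⟩
      intro c hc hxc
      obtain ⟨c', hc', hcc'⟩ := exists_mx D hc
      refine hx ⟨c', hc'⟩ ?_
      intro f hf
      exact zmod2_ne_zero.1 (hcc' f (by rw [hxc f hf]; exact one_ne_zero))
    · rintro ⟨hxQ, hx⟩
      exact ⟨hxQ, fun i => hx i.1 i.2.1⟩
  refine ⟨Mo, ?_, ?_, ?_, ?_, ?_, ?_⟩
  · intro i f x hf hx
    exact (hd i).inQ f x hf hx
  · intro i s t k hst' ht hnear
    rw [hn] at ht ⊢
    exact (hd i).iso s t k hst' ht hnear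
  · intro i
    rw [hn]
    exact (hd i).nl
  · rw [hW]
    exact hst.conn
  · rw [hW]
    exact hst.near
  · rw [hW]
    exact hnb

/-- PART S -/
theorem static_cut : StaticCutStmt := by
  intro M hM hQd hS Q hQ hQ' l1
  obtain ⟨D, W, hst, hnb⟩ := st_final hM hQd hS hQ hQ' l1
  exact st_out hM hst hnb

end Pool.Agent.H.MP_c8cc4c_co.Sp
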